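import Mathlib

set_option autoImplicit false

open MvPolynomial

namespace Pool.Agent.Helper271.Froberg

noncomputable section

abbrev R6 := MvPolynomial (Fin 6) ℂ

instance instFD (j : ℕ) : FiniteDimensional ℂ (homogeneousSubmodule (Fin 6) ℂ j) :=
  Module.Finite.iff_fg.mpr (homogeneousSubmodule_fg (Fin 6) ℂ j)

attribute [local instance] MvPolynomial.gradedAlgebra

lemma comp_mul (w f : R6) (hf : f ∈ homogeneousSubmodule (Fin 6) ℂ 9) (m : ℕ) :
    homogeneousComponent m (w * f) =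
      if 9 ≤ m then homogeneousComponent (m - 9) w * f else 0 := by
  have h := DirectSum.coe_decompose_mul_of_right_mem (homogeneousSubmodule (Fin 6) ℂ)
    (a := w) (b := f) (i := 9) m hf
  have h1 : ∀ (φ : R6) (i : ℕ),
      ((DirectSum.decompose (homogeneousSubmodule (Fin 6) ℂ) φ) i : R6) =
        homogeneousComponent i φ := fun φ i => decomposition.decompose'_apply φ i
  rw [h1, h1] at h
  exact h

/-- degree `m` part of the ideal `J` -/
def D (J : Ideal R6) (m : ℕ) : Submodule ℂ R6 :=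
  Submodule.restrictScalars ℂ J ⊓ homogeneousSubmodule (Fin 6) ℂ m

lemma mem_D (J : Ideal R6) (m : ℕ) (x : R6) :
    x ∈ D J m ↔ x ∈ J ∧ x ∈ homogeneousSubmodule (Fin 6) ℂ m := Iff.rfl

instance instFD2 (J : Ideal R6) (m : ℕ) : FiniteDimensional ℂ (D J m) :=
  Submodule.finiteDimensional_of_le (inf_le_right : D J m ≤ homogeneousSubmodule (Fin 6) ℂ m)

lemma mem_sup_low (J : Ideal R6) (hJ : J.IsHomogeneous (homogeneousSubmodule (Fin 6) ℂ))
    (f : R6) (hf : f ∈ homogeneousSubmodule (Fin 6) ℂ 9) (m : ℕ) (hm : m < 9) :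
    D (J ⊔ Ideal.span {f}) m ≤ D J m := by
  intro x hx
  rw [mem_D] at hx ⊢
  obtain ⟨hx1, hx2⟩ := hx
  refine ⟨?_, hx2⟩
  rw [Submodule.mem_sup] at hx1
  obtain ⟨u, hu, z, hz, rfl⟩ := hx1
  obtain ⟨w, rfl⟩ := Ideal.mem_span_singleton'.mp hz
  have h1 := homogeneousComponent_of_mem (m := m) hx2
  rw [if_pos rfl, map_add, comp_mul w f hf, if_neg (by omega), add_zero] at h1
  rw [← h1]
  exact homogeneousComponent_mem_of_mem hJ hu m

/-- multiplication by `f` -/
def mulf (f : R6) : R6 →ₗ[ℂ] R6 := LinearMap.mulRight ℂ f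

lemma mem_sup_high (J : Ideal R6) (hJ : J.IsHomogeneous (homogeneousSubmodule (Fin 6) ℂ))
    (f : R6) (hf : f ∈ homogeneousSubmodule (Fin 6) ℂ 9) (m : ℕ) :
    D (J ⊔ Ideal.span {f}) (m + 9) ≤
      D J (m + 9) ⊔ (homogeneousSubmodule (Fin 6) ℂ m).map (mulf f) := by
  intro x hx
  rw [mem_D] at hx
  obtain ⟨hx1, hx2⟩ := hx
  rw [Submodule.mem_sup] at hx1
  obtain ⟨u, hu, z, hz, rfl⟩ := hx1
  obtain ⟨w, rfl⟩ := Ideal.mem_span_singleton'.mp hz
  have h1 := homogeneousComponent_of_mem (m := m + 9) hx2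
  rw [if_pos rfl, map_add, comp_mul w f hf, if_pos (by omega), Nat.add_sub_cancel] at h1
  rw [← h1]
  refine Submodule.add_mem_sup ?_ ?_
  · rw [mem_D]
    exact ⟨homogeneousComponent_mem_of_mem hJ hu (m + 9), homogeneousComponent_mem _ _⟩
  · exact Submodule.mem_map_of_mem (f := mulf f) (homogeneousComponent_mem _ _)

lemma step (J : Ideal R6) (hJ : J.IsHomogeneous (homogeneousSubmodule (Fin 6) ℂ))
    (f : R6) (hf : f ∈ homogeneousSubmodule (Fin 6) ℂ 9) (m : ℕ) (Q : Submodule ℂ R6)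
    (hQ : Q ≤ homogeneousSubmodule (Fin 6) ℂ m) (hQ2 : ∀ x ∈ Q, x * f ∈ J) :
    Module.finrank ℂ (D (J ⊔ Ideal.span {f}) (m + 9)) + Module.finrank ℂ Q ≤
      Module.finrank ℂ (D J (m + 9)) +
        Module.finrank ℂ (homogeneousSubmodule (Fin 6) ℂ m) := by
  by_cases hf0 : f = 0
  · have h1 : J ⊔ Ideal.span {f} = J := by
      rw [hf0]
      simp
    rw [h1]
    exact Nat.add_le_add_left (Submodule.finrank_mono hQ) _
  · have hinj : Function.Injective (mulf f) := by
      intro a b hab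
      exact mul_right_cancel₀ hf0 hab
    have h1 := Submodule.finrank_sup_add_finrank_inf_eq (D J (m + 9))
      ((homogeneousSubmodule (Fin 6) ℂ m).map (mulf f))
    have h2 : Module.finrank ℂ ((homogeneousSubmodule (Fin 6) ℂ m).map (mulf f)) =
        Module.finrank ℂ (homogeneousSubmodule (Fin 6) ℂ m) :=
      LinearEquiv.finrank_eq (Submodule.equivMapOfInjective _ hinj _).symm
    have h3 : Module.finrank ℂ (Q.map (mulf f)) = Module.finrank ℂ Q :=
      LinearEquiv.finrank_eq (Submodule.equivMapOfInjective _ hinj _).symm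
    have h4 : Q.map (mulf f) ≤
        D J (m + 9) ⊓ (homogeneousSubmodule (Fin 6) ℂ m).map (mulf f) := by
      refine le_inf ?_ (Submodule.map_mono hQ)
      rintro _ ⟨x, hx, rfl⟩
      rw [mem_D]
      exact ⟨hQ2 x hx, IsHomogeneous.mul (hQ hx) hf⟩
    have h5 := Submodule.finrank_mono h4
    have h6 := Submodule.finrank_mono (mem_sup_high J hJ f hf m)
    omega

/-- the ideal of the first `s` forms -/
def I (f : ℕ → R6) (s : ℕ) : Ideal R6 := Ideal.span (f '' {k | k < s})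

lemma I_zero (f : ℕ → R6) : I f 0 = ⊥ := by
  simp [I]

lemma I_succ (f : ℕ → R6) (s : ℕ) : I f (s + 1) = I f s ⊔ Ideal.span {f s} := by
  unfold I
  rw [← Ideal.span_union, ← Set.image_singleton, ← Set.image_union]
  congr 2
  ext k
  simp only [Set.mem_ofPred_eq, Set.mem_union, Set.mem_singleton_iff]
  omega

lemma I_hom (f : ℕ → R6) (hf : ∀ k, f k ∈ homogeneousSubmodule (Fin 6) ℂ 9) (s : ℕ) :
    (I f s).IsHomogeneous (homogeneousSubmodule (Fin 6) ℂ) := by
  refine Ideal.homogeneous_span _ _ ?_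
  rintro _ ⟨k, _, rfl⟩
  exact ⟨9, hf k⟩

def h (f : ℕ → R6) (s j : ℕ) : ℤ :=
  (Module.finrank ℂ (homogeneousSubmodule (Fin 6) ℂ j) : ℤ) - (Module.finrank ℂ (D (I f s) j) : ℤ)

lemma h_low (f : ℕ → R6) (hf : ∀ k, f k ∈ homogeneousSubmodule (Fin 6) ℂ 9) (s j : ℕ)
    (hj : j < 9) : h f s j ≤ h f (s + 1) j := by
  unfold h
  rw [I_succ]
  have := Submodule.finrank_mono (mem_sup_low (I f s) (I_hom f hf s) (f s) (hf s) j hj)
  omega

lemma h_high (f : ℕ → R6) (hf : ∀ k, f k ∈ homogeneousSubmodule (Fin 6) ℂ 9) (s j : ℕ) :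
    h f s (j + 9) - h f s j ≤ h f (s + 1) (j + 9) := by
  unfold h
  rw [I_succ]
  have := step (I f s) (I_hom f hf s) (f s) (hf s) j (D (I f s) j) inf_le_right
    (fun x hx => Ideal.mul_mem_right _ _ hx.1)
  omega

lemma h_strict (f : ℕ → R6) (hf : ∀ k, f k ∈ homogeneousSubmodule (Fin 6) ℂ 9) (s j : ℕ)
    (g : R6) (hg : g ∈ homogeneousSubmodule (Fin 6) ℂ j) (hgI : g ∉ I f s)
    (hgf : g * f s ∈ I f s) :
    h f s (j + 9) - h f s j < h f (s + 1) (j + 9) := by
  unfold h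
  rw [I_succ]
  have h1 := step (I f s) (I_hom f hf s) (f s) (hf s) j (D (I f s) j ⊔ Submodule.span ℂ {g})
    (sup_le inf_le_right (by simpa using hg)) (by
      intro x hx
      rw [Submodule.mem_sup] at hx
      obtain ⟨u, hu, z, hz, rfl⟩ := hx
      obtain ⟨c, rfl⟩ := Submodule.mem_span_singleton.mp hz
      rw [add_mul]
      refine Ideal.add_mem _ (Ideal.mul_mem_right _ _ hu.1) ?_
      rw [smul_mul_assoc, MvPolynomial.smul_eq_C_mul]
      exact Ideal.mul_mem_left _ _ hgf)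
  have hfd : FiniteDimensional ℂ ↥(D (I f s) j ⊔ Submodule.span ℂ {g}) := by infer_instance
  have h2 : D (I f s) j < D (I f s) j ⊔ Submodule.span ℂ {g} := by
    refine lt_of_le_of_ne le_sup_left ?_
    intro heq
    apply hgI
    have : g ∈ D (I f s) j := by
      rw [heq]
      exact Submodule.mem_sup_right (Submodule.mem_span_singleton_self g)
    exact this.1
  have h3 := Submodule.finrank_lt_finrank_of_lt h2
  omega

/-! ### arithmetic -/

def E (s j : ℕ) : ℤ := (Nat.choose (j + 5) 5 : ℤ) - s * (if 9 ≤ j then (Nat.choose (j - 4) 5 : ℤ) else 0)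
  + (Nat.choose s 2 : ℤ) * (if 18 ≤ j then (Nat.choose (j - 13) 5 : ℤ) else 0)

lemma E_high (s j : ℕ) (hj : j ≤ 13) : E (s + 1) (j + 9) = E s (j + 9) - E s j := by
  unfold E
  have h1 : Nat.choose (s + 1) 2 = s + Nat.choose s 2 := by
    rw [Nat.choose_succ_succ', Nat.choose_one_right]
  rw [h1, if_pos (by omega : 9 ≤ j + 9), if_neg (by omega : ¬ 18 ≤ j)]
  have h2 : j + 9 - 4 = j + 5 := by omega
  rw [h2]
  by_cases h9 : 9 ≤ j
  · rw [if_pos h9, if_pos (by omega : 18 ≤ j + 9)]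
    have h3 : j + 9 - 13 = j - 4 := by omega
    rw [h3]
    push_cast
    ring
  · rw [if_neg h9, if_neg (by omega : ¬ 18 ≤ j + 9)]
    push_cast
    ring

lemma E_low (s j : ℕ) (hj : j < 9) : E s j = (Nat.choose (j + 5) 5 : ℤ) := by
  unfold E
  rw [if_neg (by omega), if_neg (by omega)]
  ring

lemma E_zero (j : ℕ) : E 0 j = (Nat.choose (j + 5) 5 : ℤ) := by
  unfold E
  simp

lemma mono_aux (e : ℕ → ℤ) (h0 : e 0 = 0) (h10 : e 10 = 0) (hm : ∀ s, s < 10 → e s ≤ e (s + 1)) :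
    ∀ s ≤ 10, e s = 0 := by
  have h1 := hm 0 (by norm_num)
  have h2 := hm 1 (by norm_num)
  have h3 := hm 2 (by norm_num)
  have h4 := hm 3 (by norm_num)
  have h5 := hm 4 (by norm_num)
  have h6 := hm 5 (by norm_num)
  have h7 := hm 6 (by norm_num)
  have h8 := hm 7 (by norm_num)
  have h9 := hm 8 (by norm_num)
  have h10' := hm 9 (by norm_num)
  norm_num at h1 h2 h3 h4 h5 h6 h7 h8 h9 h10'
  intro s hs
  interval_cases s <;> omega

lemma arith (h : ℕ → ℕ → ℤ) (hlow : ∀ s j, j < 9 → h s j ≤ h (s + 1) j)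
    (hhigh : ∀ s j, h s (j + 9) - h s j ≤ h (s + 1) (j + 9))
    (h0 : ∀ j, h 0 j = (Nat.choose (j + 5) 5 : ℤ))
    (h10 : ∀ j ≤ 22, h 10 j = E 10 j) :
    ∀ j ≤ 22, ∀ s ≤ 10, h s j = E s j := by
  intro j
  induction j using Nat.strong_induction_on with
  | _ j ih =>
    intro hj
    have key := mono_aux (fun s => h s j - E s j) (by rw [h0, E_zero]; ring)
      (by rw [h10 j hj]; ring) (by
        intro s hs
        show h s j - E s j ≤ h (s + 1) j - E (s + 1) j
        by_cases h9 : j < 9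
        · rw [E_low _ _ h9, E_low _ _ h9]
          have := hlow s j h9
          omega
        · obtain ⟨i, rfl⟩ : ∃ i, j = i + 9 := ⟨j - 9, by omega⟩
          rw [E_high s i (by omega)]
          have h1 := hhigh s i
          have h2 := ih i (by omega) (by omega) s (by omega)
          omega)
    intro s hs
    have := key s hs
    omega

theorem contra (f : ℕ → R6) (hf : ∀ k, f k ∈ homogeneousSubmodule (Fin 6) ℂ 9)
    (h0 : ∀ j, (Module.finrank ℂ (homogeneousSubmodule (Fin 6) ℂ j) : ℤ) =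
      (Nat.choose (j + 5) 5 : ℤ))
    (h10 : ∀ j ≤ 22, (Module.finrank ℂ (homogeneousSubmodule (Fin 6) ℂ j) : ℤ) -
      (Module.finrank ℂ (D (I f 10) j) : ℤ) = E 10 j)
    (g : R6) (hg : g ∈ homogeneousSubmodule (Fin 6) ℂ 13) (hgI : g ∉ I f 7)
    (hgf : g * f 7 ∈ I f 7) : False := by
  have hb : ∀ j, h f 0 j = (Nat.choose (j + 5) 5 : ℤ) := by
    intro j
    unfold h
    rw [I_zero]
    have : D ⊥ j = ⊥ := by
      rw [eq_bot_iff]
      intro x hx
      rw [mem_D] at hx
      simpa using hx.1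
    rw [this, finrank_bot, h0]
    simp
  have hall := arith (h f) (fun s j => h_low f hf s j) (fun s j => h_high f hf s j) hb h10
  have h1 := h_strict f hf 7 13 g hg hgI hgf
  rw [hall (13 + 9) (by norm_num) 7 (by norm_num), hall 13 (by norm_num) 7 (by norm_num),
    hall (13 + 9) (by norm_num) (7 + 1) (by norm_num), E_high 7 13 (by norm_num)] at h1
  exact lt_irrefl _ h1

end

end Pool.Agent.Helper271.Froberg
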