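import Mathlib

set_option autoImplicit false
set_option linter.constructorNameAsVariable false

open PowerSeries

namespace Pool.Agent.Helper271.Froberg

noncomputable section

variable {R : Type*} [CommRing R] [Algebra ℂ R]

/-- `w = p + q t` -/
def w (p q : ℂ) : PowerSeries R :=
  PowerSeries.C (algebraMap ℂ R p) + PowerSeries.C (algebraMap ℂ R q) * PowerSeries.X

/-- `v = 1/(p + q t)` -/
def v (p q : ℂ) : PowerSeries R :=
  PowerSeries.mk (fun n => algebraMap ℂ R (p⁻¹ * (-q * p⁻¹) ^ n))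

lemma w_mul_v {p q : ℂ} (hp : p ≠ 0) : (w p q : PowerSeries R) * v p q = 1 := by
  ext n
  rcases n with _ | n
  · simp only [w, v, add_mul, map_add, mul_assoc]
    rw [PowerSeries.coeff_C_mul, PowerSeries.coeff_C_mul]
    simp only [PowerSeries.coeff_zero_X_mul, PowerSeries.coeff_mk, pow_zero, mul_one, mul_zero,
      add_zero, PowerSeries.coeff_zero_one]
    rw [← map_mul, mul_inv_cancel₀ hp, map_one]
  · simp only [w, v, add_mul, map_add, mul_assoc]
    rw [PowerSeries.coeff_C_mul, PowerSeries.coeff_C_mul, PowerSeries.coeff_succ_X_mul]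
    simp only [PowerSeries.coeff_mk, PowerSeries.coeff_one, Nat.succ_ne_zero, if_false]
    rw [← map_mul, ← map_mul, ← map_add]
    have : p * (p⁻¹ * (-q * p⁻¹) ^ (n + 1)) + q * (p⁻¹ * (-q * p⁻¹) ^ n) = 0 := by
      have h : p * p⁻¹ = 1 := mul_inv_cancel₀ hp
      calc p * (p⁻¹ * (-q * p⁻¹) ^ (n + 1)) + q * (p⁻¹ * (-q * p⁻¹) ^ n)
          = (p * p⁻¹) * ((-q * p⁻¹) * (-q * p⁻¹) ^ n) + (q * p⁻¹) * (-q * p⁻¹) ^ n := by
            rw [pow_succ]; ring
        _ = 0 := by rw [h]; ring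
    rw [this, map_zero]

/-- The part of `∑ y_i / (p_i + q_i t)` of positive order, divided by `t`. -/
def P1 (y : Fin 6 → R) (p q : Fin 6 → ℂ) : PowerSeries R :=
  ∑ i, PowerSeries.C (y i) *
    PowerSeries.mk (fun n => algebraMap ℂ R ((p i)⁻¹ * (-(q i) * (p i)⁻¹) ^ (n + 1)))

def M (y : Fin 6 → R) (p : Fin 6 → ℂ) : R := ∑ i, algebraMap ℂ R (p i)⁻¹ * y i

def Pt (y : Fin 6 → R) (p q : Fin 6 → ℂ) : PowerSeries R :=
  ∑ i, PowerSeries.C (y i) * v (p i) (q i)

lemma Pt_eq (y : Fin 6 → R) (p q : Fin 6 → ℂ) :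
    Pt y p q = PowerSeries.C (M y p) + PowerSeries.X * P1 y p q := by
  unfold Pt M P1
  rw [map_sum, Finset.mul_sum, ← Finset.sum_add_distrib]
  refine Finset.sum_congr rfl fun i _ => ?_
  have hv : (v (p i) (q i) : PowerSeries R) = PowerSeries.C (algebraMap ℂ R (p i)⁻¹) +
      PowerSeries.X *
        PowerSeries.mk (fun n => algebraMap ℂ R ((p i)⁻¹ * (-(q i) * (p i)⁻¹) ^ (n + 1))) := by
    ext n
    rcases n with _ | n
    · simp [v]
    · rw [map_add, PowerSeries.coeff_succ_X_mul]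
      simp [v]
  rw [hv, map_mul]
  ring

def W8 (R : Type*) [CommRing R] [Algebra ℂ R] (p q : Fin 6 → ℂ) : PowerSeries R :=
  ∏ i, (w (p i) (q i) : PowerSeries R) ^ 8

def g (y : Fin 6 → R) (p q : Fin 6 → ℂ) : R :=
  ∑ a ∈ Finset.range 14, (Nat.choose 22 a : R) * ((M y p) ^ (13 - a) *
    PowerSeries.coeff (13 - a) (W8 R p q * (P1 y p q) ^ a))

lemma coeff_eq (y : Fin 6 → R) (p q : Fin 6 → ℂ) :
    PowerSeries.coeff 13 (W8 R p q * (Pt y p q) ^ 22) = (M y p) ^ 9 * g y p q := by
  rw [Pt_eq, add_comm, add_pow, Finset.mul_sum, map_sum]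
  have hsub : Finset.range 14 ⊆ Finset.range (22 + 1) := by
    intro x hx; simp at hx ⊢; omega
  rw [g, Finset.mul_sum, ← Finset.sum_subset hsub]
  · refine Finset.sum_congr rfl fun a ha => ?_
    have ha' : a ≤ 13 := by simp at ha; omega
    have h1 : W8 R p q * ((PowerSeries.X * P1 y p q) ^ a * (PowerSeries.C (M y p)) ^ (22 - a) *
        ((Nat.choose 22 a : ℕ) : PowerSeries R)) =
        PowerSeries.C ((M y p) ^ (22 - a) * (Nat.choose 22 a : R)) *
          (PowerSeries.X ^ a * (W8 R p q * (P1 y p q) ^ a)) := by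
      rw [mul_pow, map_mul, map_pow, map_natCast]
      ring
    rw [h1, PowerSeries.coeff_C_mul, PowerSeries.coeff_X_pow_mul', if_pos ha']
    have h2 : 22 - a = 9 + (13 - a) := by omega
    rw [h2, pow_add]
    ring
  · intro a ha ha'
    have ha2 : ¬ a ≤ 13 := by simp at ha ha'; omega
    have h1 : W8 R p q * ((PowerSeries.X * P1 y p q) ^ a * (PowerSeries.C (M y p)) ^ (22 - a) *
        ((Nat.choose 22 a : ℕ) : PowerSeries R)) =
        PowerSeries.C ((M y p) ^ (22 - a) * (Nat.choose 22 a : R)) *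
          (PowerSeries.X ^ a * (W8 R p q * (P1 y p q) ^ a)) := by
      rw [mul_pow, map_mul, map_pow, map_natCast]
      ring
    rw [h1, PowerSeries.coeff_C_mul, PowerSeries.coeff_X_pow_mul', if_neg ha2, mul_zero]

def T (y : Fin 6 → R) (p q : Fin 6 → ℂ) : R :=
  ∑ k ∈ Finset.piAntidiag (Finset.univ : Finset (Fin 6)) 22,
    if (∀ i, k i ≤ 8) then (Nat.multinomial Finset.univ k : R) * (∏ i, y i ^ k i) *
      PowerSeries.coeff 13 (∏ i, (w (p i) (q i) : PowerSeries R) ^ (8 - k i)) else 0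

lemma T_mem (y : Fin 6 → R) (p q : Fin 6 → ℂ) (hp : ∀ i, p i ≠ 0) :
    PowerSeries.coeff 13 (W8 R p q * (Pt y p q) ^ 22) - T y p q ∈
      Ideal.span (Set.range fun i => y i ^ 9) := by
  unfold Pt T
  rw [Finset.sum_pow_eq_sum_piAntidiag, Finset.mul_sum, map_sum, ← Finset.sum_sub_distrib]
  refine Ideal.sum_mem _ fun k _ => ?_
  split_ifs with hk
  · have h1 : W8 R p q * (((Nat.multinomial Finset.univ k : ℕ) : PowerSeries R) *
        ∏ i, (PowerSeries.C (y i) * v (p i) (q i)) ^ k i) =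
        PowerSeries.C ((Nat.multinomial Finset.univ k : R) * (∏ i, y i ^ k i)) *
          ∏ i, (w (p i) (q i) : PowerSeries R) ^ (8 - k i) := by
      have h2 : W8 R p q * ∏ i, (PowerSeries.C (y i) * v (p i) (q i)) ^ k i =
          (∏ i, (PowerSeries.C (y i)) ^ k i) *
            ∏ i, (w (p i) (q i) : PowerSeries R) ^ (8 - k i) := by
        unfold W8
        rw [← Finset.prod_mul_distrib, ← Finset.prod_mul_distrib]
        refine Finset.prod_congr rfl fun i _ => ?_
        have h3 : (8 : ℕ) = (8 - k i) + k i := by have := hk i; omega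
        have h4 : (w (p i) (q i) : PowerSeries R) ^ 8 =
            (w (p i) (q i) : PowerSeries R) ^ (8 - k i) * (w (p i) (q i) : PowerSeries R) ^ (k i) := by
          rw [← pow_add, ← h3]
        rw [h4, mul_pow]
        have h5 : (w (p i) (q i) : PowerSeries R) ^ (k i) * (v (p i) (q i)) ^ (k i) = 1 := by
          rw [← mul_pow, w_mul_v (hp i), one_pow]
        calc _ = (PowerSeries.C (y i)) ^ k i * (w (p i) (q i) : PowerSeries R) ^ (8 - k i) *
            ((w (p i) (q i) : PowerSeries R) ^ (k i) * (v (p i) (q i)) ^ (k i)) := by ring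
          _ = _ := by rw [h5, mul_one]
      rw [mul_left_comm, h2, map_mul, map_natCast, map_prod]
      simp only [map_pow]
      ring
    rw [h1, PowerSeries.coeff_C_mul, sub_self]
    exact Ideal.zero_mem _
  · push Not at hk
    obtain ⟨i, hi⟩ := hk
    have h1 : W8 R p q * (((Nat.multinomial Finset.univ k : ℕ) : PowerSeries R) *
        ∏ i, (PowerSeries.C (y i) * v (p i) (q i)) ^ k i) =
        PowerSeries.C (y i ^ 9) * (PowerSeries.C (y i) ^ (k i - 9) * v (p i) (q i) ^ (k i) *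
          W8 R p q * (((Nat.multinomial Finset.univ k : ℕ) : PowerSeries R) *
          ∏ i ∈ Finset.univ.erase i, (PowerSeries.C (y i) * v (p i) (q i)) ^ k i)) := by
      rw [← Finset.mul_prod_erase Finset.univ _ (Finset.mem_univ i)]
      have h3 : k i = 9 + (k i - 9) := by omega
      have h4 : (PowerSeries.C (y i) : PowerSeries R) ^ k i =
          PowerSeries.C (y i ^ 9) * PowerSeries.C (y i) ^ (k i - 9) := by
        rw [map_pow, ← pow_add, ← h3]
      rw [mul_pow, h4]
      ring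
    rw [h1, PowerSeries.coeff_C_mul, sub_zero]
    exact Ideal.mul_mem_right _ _ (Ideal.subset_span ⟨i, rfl⟩)

/-! ### reversal -/

/-- polynomial version of `w` -/
def wp (R : Type*) [CommRing R] [Algebra ℂ R] (p q : ℂ) : Polynomial R :=
  Polynomial.C (algebraMap ℂ R p) + Polynomial.C (algebraMap ℂ R q) * Polynomial.X

lemma coe_wp (p q : ℂ) : ((wp R p q : Polynomial R) : PowerSeries R) = w p q := by
  simp [wp, w]

lemma natDegree_wp (p q : ℂ) : (wp R p q).natDegree ≤ 1 := by
  unfold wp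
  compute_degree

lemma reflect_wp (p q : ℂ) : Polynomial.reflect 1 (wp R p q) = wp R q p := by
  unfold wp
  rw [Polynomial.reflect_add, Polynomial.reflect_C, Polynomial.reflect_C_mul]
  have : Polynomial.reflect 1 (Polynomial.X : Polynomial R) = 1 := by
    simp
  rw [this]
  simp [add_comm]

omit [Algebra ℂ R] in
lemma reflect_pow {f : Polynomial R} (hf : f.natDegree ≤ 1) (n : ℕ) :
    Polynomial.reflect n (f ^ n) = (Polynomial.reflect 1 f) ^ n := by
  induction n with
  | zero => simp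
  | succ n ih =>
    rw [pow_succ, Polynomial.reflect_mul _ _ _ hf, ih, pow_succ]
    calc (f ^ n).natDegree ≤ n * f.natDegree := Polynomial.natDegree_pow_le
      _ ≤ n * 1 := Nat.mul_le_mul_left _ hf
      _ = n := mul_one n

omit [Algebra ℂ R] in
lemma reflect_prod (s : Finset (Fin 6)) (f : Fin 6 → Polynomial R) (hf : ∀ i, (f i).natDegree ≤ 1)
    (e : Fin 6 → ℕ) :
    Polynomial.reflect (∑ i ∈ s, e i) (∏ i ∈ s, f i ^ e i) =
      ∏ i ∈ s, (Polynomial.reflect 1 (f i)) ^ e i := by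
  have hdeg : ∀ i, (f i ^ e i).natDegree ≤ e i := fun i => by
    calc (f i ^ e i).natDegree ≤ e i * (f i).natDegree := Polynomial.natDegree_pow_le
      _ ≤ e i * 1 := Nat.mul_le_mul_left _ (hf i)
      _ = e i := mul_one _
  induction s using Finset.induction_on with
  | empty => simp
  | insert a s ha ih =>
    rw [Finset.sum_insert ha, Finset.prod_insert ha, Finset.prod_insert ha,
      Polynomial.reflect_mul _ _ (hdeg a), ih, reflect_pow (hf a)]
    exact (Polynomial.natDegree_prod_le _ _).trans (Finset.sum_le_sum fun i _ => hdeg i)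

lemma coeff_symm (p q : Fin 6 → ℂ) (e : Fin 6 → ℕ) (he : ∑ i, e i = 26) :
    PowerSeries.coeff 13 (∏ i, (w (p i) (q i) : PowerSeries R) ^ e i) =
      PowerSeries.coeff 13 (∏ i, (w (q i) (p i) : PowerSeries R) ^ e i) := by
  have h : ∀ p q : Fin 6 → ℂ, PowerSeries.coeff 13 (∏ i, (w (p i) (q i) : PowerSeries R) ^ e i) =
      Polynomial.coeff (∏ i, (wp R (p i) (q i)) ^ e i) 13 := by
    intro p q
    rw [← Polynomial.coeff_coe]
    congr 1
    rw [← Polynomial.coeToPowerSeries.ringHom_apply, map_prod]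
    refine Finset.prod_congr rfl fun i _ => ?_
    rw [map_pow, Polynomial.coeToPowerSeries.ringHom_apply, coe_wp]
  rw [h, h]
  have h2 := reflect_prod Finset.univ (fun i => wp R (p i) (q i)) (fun i => natDegree_wp _ _) e
  simp only [reflect_wp] at h2
  rw [← h2, Polynomial.coeff_reflect, he]
  congr 1

lemma T_symm (y : Fin 6 → R) (p q : Fin 6 → ℂ) : T y p q = T y q p := by
  unfold T
  apply Finset.sum_congr rfl
  intro k hk
  by_cases h8 : ∀ i, k i ≤ 8
  · rw [if_pos h8, if_pos h8]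
    have he : ∑ i, (8 - k i) = 26 := by
      rw [Finset.mem_piAntidiag] at hk
      have h1 := hk.1
      rw [Fin.sum_univ_six] at h1 ⊢
      have := h8 0; have := h8 1; have := h8 2; have := h8 3; have := h8 4; have := h8 5
      omega
    have h3 := coeff_symm (R := R) p q (fun i => 8 - k i) he
    rw [h3]
  · rw [if_neg h8, if_neg h8]

/-! ### homogeneity -/

/-- all coefficients are homogeneous of degree `a` -/
def Hom (a : ℕ) (φ : PowerSeries (MvPolynomial (Fin 6) ℂ)) : Prop :=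
  ∀ n, (PowerSeries.coeff n φ).IsHomogeneous a

lemma Hom.mul {a b : ℕ} {φ ψ : PowerSeries (MvPolynomial (Fin 6) ℂ)} (h : Hom a φ) (h' : Hom b ψ) :
    Hom (a + b) (φ * ψ) := by
  intro n
  rw [PowerSeries.coeff_mul]
  exact MvPolynomial.IsHomogeneous.sum _ _ _ fun x _ => (h _).mul (h' _)

lemma Hom.one : Hom 0 1 := by
  intro n
  rw [PowerSeries.coeff_one]
  split_ifs
  · exact MvPolynomial.isHomogeneous_one _ _
  · exact MvPolynomial.isHomogeneous_zero _ _ _

lemma Hom.pow {a : ℕ} {φ : PowerSeries (MvPolynomial (Fin 6) ℂ)} (h : Hom a φ) (n : ℕ) :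
    Hom (a * n) (φ ^ n) := by
  induction n with
  | zero => simpa using Hom.one
  | succ n ih => rw [pow_succ, Nat.mul_succ]; exact ih.mul h

lemma Hom.prod (s : Finset (Fin 6)) (f : Fin 6 → PowerSeries (MvPolynomial (Fin 6) ℂ))
    (h : ∀ i, Hom 0 (f i)) : Hom 0 (∏ i ∈ s, f i) := by
  induction s using Finset.induction_on with
  | empty => simpa using Hom.one
  | insert a s ha ih => rw [Finset.prod_insert ha]; simpa using (h a).mul ih

lemma Hom.C {a : ℕ} {r : MvPolynomial (Fin 6) ℂ} (h : r.IsHomogeneous a) :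
    Hom a (PowerSeries.C r) := by
  intro n
  rw [PowerSeries.coeff_C]
  split_ifs
  · exact h
  · exact MvPolynomial.isHomogeneous_zero _ _ _

lemma Hom.mk (f : ℕ → ℂ) :
    Hom 0 (PowerSeries.mk (fun n => algebraMap ℂ (MvPolynomial (Fin 6) ℂ) (f n))) := by
  intro n
  rw [PowerSeries.coeff_mk]
  exact MvPolynomial.isHomogeneous_C _ _

lemma Hom.sum {a : ℕ} (s : Finset (Fin 6)) (f : Fin 6 → PowerSeries (MvPolynomial (Fin 6) ℂ))
    (h : ∀ i, Hom a (f i)) : Hom a (∑ i ∈ s, f i) := by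
  intro n
  rw [map_sum]
  exact MvPolynomial.IsHomogeneous.sum _ _ _ fun x _ => h _ _

lemma Hom.w (p q : ℂ) : Hom 0 (w p q) := by
  intro n
  unfold Froberg.w
  rw [map_add, PowerSeries.coeff_C_mul]
  refine MvPolynomial.IsHomogeneous.add ?_ ?_
  · rw [PowerSeries.coeff_C]
    split_ifs
    · exact MvPolynomial.isHomogeneous_C _ _
    · exact MvPolynomial.isHomogeneous_zero _ _ _
  · rw [PowerSeries.coeff_X]
    split_ifs
    · rw [mul_one]
      exact MvPolynomial.isHomogeneous_C _ _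
    · rw [mul_zero]
      exact MvPolynomial.isHomogeneous_zero _ _ _

lemma M_hom (y : Fin 6 → MvPolynomial (Fin 6) ℂ) (hy : ∀ i, (y i).IsHomogeneous 1)
    (p : Fin 6 → ℂ) : (M y p).IsHomogeneous 1 := by
  unfold M
  exact MvPolynomial.IsHomogeneous.sum _ _ _ fun i _ => (hy i).C_mul _

lemma g_hom (y : Fin 6 → MvPolynomial (Fin 6) ℂ) (hy : ∀ i, (y i).IsHomogeneous 1)
    (p q : Fin 6 → ℂ) : (g y p q).IsHomogeneous 13 := by
  have hP : Hom 1 (P1 y p q) := by
    unfold P1
    refine Hom.sum _ _ fun i => ?_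
    exact (Hom.C (hy i)).mul (Hom.mk (fun n => (p i)⁻¹ * (-(q i) * (p i)⁻¹) ^ (n + 1)))
  have hW : Hom 0 (W8 (MvPolynomial (Fin 6) ℂ) p q) := by
    unfold W8
    refine Hom.prod _ _ fun i => ?_
    have h := (Hom.w (p i) (q i)).pow 8
    rw [zero_mul] at h
    exact h
  unfold g
  refine MvPolynomial.IsHomogeneous.sum _ _ _ fun a ha => ?_
  have ha' : a ≤ 13 := by simp at ha; omega
  have h1 := (hW.mul (hP.pow a)) (13 - a)
  have h2 := ((M_hom y hy p).pow (13 - a)).mul h1
  have h3 : 1 * (13 - a) + (0 + 1 * a) = 13 := by omega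
  rw [h3] at h2
  have h4 := h2.C_mul ((Nat.choose 22 a : ℕ) : ℂ)
  simpa using h4

/-- The key syzygy. -/
lemma key (y : Fin 6 → R) (p q : Fin 6 → ℂ) (hp : ∀ i, p i ≠ 0) (hq : ∀ i, q i ≠ 0) :
    (M y p) ^ 9 * g y p q - (M y q) ^ 9 * g y q p ∈ Ideal.span (Set.range fun i => y i ^ 9) := by
  have h1 := T_mem y p q hp
  have h2 := T_mem y q p hq
  rw [coeff_eq] at h1 h2
  rw [T_symm y q p] at h2
  have e : ∀ a b t : R, a - b = (a - t) - (b - t) := fun a b t => by ring
  rw [e _ _ (T y p q)]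
  exact Ideal.sub_mem _ h1 h2

end

end Pool.Agent.Helper271.Froberg
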