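import Mathlib
import Pool.Agent.Helper271.FrobergSyz

set_option autoImplicit false
set_option linter.constructorNameAsVariable false

namespace Pool.Agent.Helper271.Froberg

noncomputable section

abbrev B := Polynomial (Polynomial ℂ)

def eps : B := Polynomial.C Polynomial.X
def del : B := Polynomial.X

lemma coeff_zero_of_mem {h : B} (hh : h ∈ Ideal.span {eps ^ 9, del ^ 9}) :
    (h.coeff 8).coeff 5 = 0 := by
  rw [Ideal.mem_span_pair] at hh
  obtain ⟨a, b, rfl⟩ := hh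
  have h1 : (b * del ^ 9).coeff 8 = 0 := by
    unfold del
    rw [Polynomial.coeff_mul_X_pow', if_neg (by norm_num)]
  have h2 : (a * eps ^ 9).coeff 8 = a.coeff 8 * Polynomial.X ^ 9 := by
    unfold eps
    rw [← Polynomial.C_pow, Polynomial.coeff_mul_C]
  rw [Polynomial.coeff_add, h1, h2, add_zero, Polynomial.coeff_mul_X_pow', if_neg (by norm_num)]

lemma coeff_pow (κ κ' : ℂ) :
    (((algebraMap ℂ B κ * eps + algebraMap ℂ B κ' * del) ^ 13).coeff 8).coeff 5 =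
      1287 * (κ ^ 5 * κ' ^ 8) := by
  rw [add_pow]
  have h1 : ∀ m ∈ Finset.range (13 + 1), (algebraMap ℂ B κ * eps) ^ m *
      (algebraMap ℂ B κ' * del) ^ (13 - m) * ((Nat.choose 13 m : ℕ) : B) =
      Polynomial.C (Polynomial.C (κ ^ m * κ' ^ (13 - m) * (Nat.choose 13 m : ℂ)) *
        Polynomial.X ^ m) * Polynomial.X ^ (13 - m) := by
    intro m _
    have e1 : ∀ z : ℂ, algebraMap ℂ B z = Polynomial.C (Polynomial.C z) := fun z => rfl
    rw [e1, e1]
    unfold eps del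
    simp only [map_mul, map_pow, map_natCast]
    ring
  rw [Finset.sum_congr rfl h1, Polynomial.finsetSum_coeff, Polynomial.finsetSum_coeff,
    Finset.sum_eq_single 5]
  · rw [Polynomial.coeff_C_mul, Polynomial.coeff_X_pow, if_pos (by norm_num), mul_one,
      Polynomial.coeff_C_mul, Polynomial.coeff_X_pow, if_pos rfl, mul_one]
    norm_num [Nat.choose]
    ring
  · intro m hm hm5
    rw [Polynomial.coeff_C_mul, Polynomial.coeff_X_pow, if_neg, mul_zero, Polynomial.coeff_zero]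
    simp at hm
    omega
  · intro h
    simp at h

theorem not_mem (y : Fin 6 → MvPolynomial (Fin 6) ℂ) (p q : Fin 6 → ℂ) (hp : ∀ i, p i ≠ 0)
    (ψ : MvPolynomial (Fin 6) ℂ →ₐ[ℂ] B) (c : Fin 6 → ℂ)
    (hψ : ∀ i, ψ (y i) = algebraMap ℂ B (c i) * (if i.val < 3 then eps else del))
    (h1 : (p 0)⁻¹ * c 0 + (p 1)⁻¹ * c 1 + (p 2)⁻¹ * c 2 = 0)
    (h2 : (p 3)⁻¹ * c 3 + (p 4)⁻¹ * c 4 + (p 5)⁻¹ * c 5 = 0)
    (h3 : (q 0)⁻¹ * c 0 + (q 1)⁻¹ * c 1 + (q 2)⁻¹ * c 2 = 0)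
    (h4 : (q 3)⁻¹ * c 3 + (q 4)⁻¹ * c 4 + (q 5)⁻¹ * c 5 = 0)
    (κ κ' : ℂ) (hκ : κ ≠ 0) (hκ' : κ' ≠ 0)
    (e1 : κ = (p 0)⁻¹ * (-(q 0) * (p 0)⁻¹) * c 0 + (p 1)⁻¹ * (-(q 1) * (p 1)⁻¹) * c 1 +
      (p 2)⁻¹ * (-(q 2) * (p 2)⁻¹) * c 2)
    (e2 : κ' = (p 3)⁻¹ * (-(q 3) * (p 3)⁻¹) * c 3 + (p 4)⁻¹ * (-(q 4) * (p 4)⁻¹) * c 4 +
      (p 5)⁻¹ * (-(q 5) * (p 5)⁻¹) * c 5) :
    g y p q ∉ Ideal.span (Set.range (fun i => y i ^ 9) ∪ {(M y q) ^ 9}) := by
  intro hmem
  have hM : ∀ s : Fin 6 → ℂ, (s 0)⁻¹ * c 0 + (s 1)⁻¹ * c 1 + (s 2)⁻¹ * c 2 = 0 →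
      (s 3)⁻¹ * c 3 + (s 4)⁻¹ * c 4 + (s 5)⁻¹ * c 5 = 0 → ψ (M y s) = 0 := by
    intro s hs1 hs2
    unfold M
    rw [map_sum]
    simp only [map_mul, hψ, AlgHom.commutes, Fin.sum_univ_six]
    simp only [Fin.val_zero, Fin.val_one, Fin.isValue]
    have t2 : ((2 : Fin 6) : ℕ) = 2 := rfl
    have t3 : ((3 : Fin 6) : ℕ) = 3 := rfl
    have t4 : ((4 : Fin 6) : ℕ) = 4 := rfl
    have t5 : ((5 : Fin 6) : ℕ) = 5 := rfl
    rw [t2, t3, t4, t5]
    norm_num
    have a1 := congrArg (algebraMap ℂ B) hs1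
    have a2 := congrArg (algebraMap ℂ B) hs2
    simp only [map_add, map_mul, map_zero] at a1 a2
    linear_combination eps * a1 + del * a2
  have hMp := hM p h1 h2
  have hMq := hM q h3 h4
  -- image of the ideal
  have himg : ψ (g y p q) ∈ Ideal.span {eps ^ 9, del ^ 9} := by
    have h5 : ψ (g y p q) ∈ Ideal.map ψ (Ideal.span (Set.range (fun i => y i ^ 9) ∪ {(M y q) ^ 9})) :=
      Ideal.mem_map_of_mem _ hmem
    rw [Ideal.map_span] at h5
    refine (Ideal.span_le.mpr ?_) h5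
    rintro _ ⟨x, hx, rfl⟩
    rcases hx with ⟨i, rfl⟩ | hx
    · show ψ (y i ^ 9) ∈ Ideal.span {eps ^ 9, del ^ 9}
      rw [map_pow, hψ, mul_pow]
      refine Ideal.mul_mem_left _ _ ?_
      split_ifs
      · exact Ideal.subset_span (by simp)
      · exact Ideal.subset_span (by simp)
    · rw [Set.mem_singleton_iff] at hx
      rw [hx, map_pow, hMq, zero_pow (by norm_num)]
      exact Ideal.zero_mem _
  have h0 := coeff_zero_of_mem himg
  -- compute ψ g
  have hW : ψ (PowerSeries.coeff 0 (W8 (MvPolynomial (Fin 6) ℂ) p q)) =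
      algebraMap ℂ B (∏ i, (p i) ^ 8) := by
    unfold W8
    rw [PowerSeries.coeff_zero_eq_constantCoeff_apply, map_prod, map_prod, map_prod]
    refine Finset.prod_congr rfl fun i _ => ?_
    rw [map_pow, map_pow, map_pow]
    congr 1
    unfold w
    rw [map_add, map_mul, PowerSeries.constantCoeff_X, mul_zero, add_zero,
      PowerSeries.constantCoeff_C, AlgHom.commutes]
  have hP : ψ (PowerSeries.coeff 0 (P1 y p q)) =
      algebraMap ℂ B κ * eps + algebraMap ℂ B κ' * del := by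
    unfold P1
    rw [map_sum, map_sum]
    simp only [PowerSeries.coeff_C_mul, PowerSeries.coeff_mk, map_mul, hψ, AlgHom.commutes,
      Fin.sum_univ_six, zero_add, pow_one]
    simp only [Fin.val_zero, Fin.val_one, Fin.isValue]
    have t2 : ((2 : Fin 6) : ℕ) = 2 := rfl
    have t3 : ((3 : Fin 6) : ℕ) = 3 := rfl
    have t4 : ((4 : Fin 6) : ℕ) = 4 := rfl
    have t5 : ((5 : Fin 6) : ℕ) = 5 := rfl
    rw [t2, t3, t4, t5, e1, e2]
    simp only [map_add, map_mul]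
    norm_num
    ring
  have hg : ψ (g y p q) = algebraMap ℂ B (497420 * ∏ i, (p i) ^ 8) *
      (algebraMap ℂ B κ * eps + algebraMap ℂ B κ' * del) ^ 13 := by
    unfold g
    have hc : PowerSeries.coeff 0 (W8 (MvPolynomial (Fin 6) ℂ) p q * (P1 y p q) ^ 13) =
        PowerSeries.coeff 0 (W8 (MvPolynomial (Fin 6) ℂ) p q) *
          (PowerSeries.coeff 0 (P1 y p q)) ^ 13 := by
      rw [PowerSeries.coeff_zero_eq_constantCoeff_apply,
        PowerSeries.coeff_zero_eq_constantCoeff_apply,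
        PowerSeries.coeff_zero_eq_constantCoeff_apply, map_mul, map_pow]
    rw [map_sum, Finset.sum_eq_single 13]
    · rw [map_mul, map_natCast, map_mul, Nat.sub_self, pow_zero, map_one, one_mul,
        hc, map_mul, hW, map_pow, hP, map_mul (algebraMap ℂ B)]
      have hch : ((Nat.choose 22 13 : ℕ) : B) = algebraMap ℂ B 497420 := by
        have : Nat.choose 22 13 = 497420 := by decide
        rw [this, Nat.cast_ofNat, map_ofNat]
      rw [hch, mul_assoc]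
    · intro a ha ha13
      rw [map_mul, map_mul, map_pow, hMp, zero_pow, zero_mul, mul_zero]
      simp at ha
      omega
    · intro h
      simp at h
  rw [hg] at h0
  have h6 : ∀ (z : ℂ) (f : B), ((algebraMap ℂ B z * f).coeff 8).coeff 5 = z * (f.coeff 8).coeff 5 := by
    intro z f
    have e1 : algebraMap ℂ B z = Polynomial.C (Polynomial.C z) := rfl
    rw [e1, Polynomial.coeff_C_mul, Polynomial.coeff_C_mul]
  rw [h6, coeff_pow] at h0
  have h7 : (∏ i, (p i) ^ 8) ≠ 0 := Finset.prod_ne_zero_iff.mpr fun i _ => pow_ne_zero _ (hp i)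
  have h8 : (497420 * ∏ i, (p i) ^ 8) * (1287 * (κ ^ 5 * κ' ^ 8)) ≠ 0 := by
    refine mul_ne_zero (mul_ne_zero (by norm_num) h7) (mul_ne_zero (by norm_num) ?_)
    exact mul_ne_zero (pow_ne_zero _ hκ) (pow_ne_zero _ hκ')
  exact h8 h0

end

end Pool.Agent.Helper271.Froberg
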