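import Mathlib
import Pool.Agent.Helper271.FrobergPsi
import Pool.Agent.Helper271.FrobergExcess

set_option autoImplicit false
set_option linter.constructorNameAsVariable false

open MvPolynomial

namespace Pool.Agent.Helper271.Froberg

noncomputable section

/-! ### general position -/

section Gen

variable {S T : Type*} [CommRing S] [CommRing T]

def Am (a : Fin 10 → Fin 6 → S) : Matrix (Fin 6) (Fin 6) S :=
  Matrix.of fun i j => a (Fin.castLE (by norm_num) i) j

def al (a : Fin 10 → Fin 6 → S) (i : Fin 6) : S := ∑ k, a 6 k * (Am a).adjugate k i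

def be (a : Fin 10 → Fin 6 → S) (i : Fin 6) : S := ∑ k, a 7 k * (Am a).adjugate k i

def mn (a : Fin 10 → Fin 6 → S) (i j : Fin 6) : S := al a i * be a j - al a j * be a i

def F (a : Fin 10 → Fin 6 → S) : S :=
  (Am a).det * (∏ i, al a i) * (∏ i, be a i) *
    (mn a 0 1 * mn a 0 2 * mn a 1 2) * (mn a 3 4 * mn a 3 5 * mn a 4 5)

lemma map_Am (φ : S →+* T) (a : Fin 10 → Fin 6 → S) :
    Am (fun k i => φ (a k i)) = φ.mapMatrix (Am a) := by
  ext i j
  rfl

lemma map_al (φ : S →+* T) (a : Fin 10 → Fin 6 → S) (i : Fin 6) :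
    φ (al a i) = al (fun k i => φ (a k i)) i := by
  unfold al
  rw [map_sum, map_Am, ← RingHom.map_adjugate]
  simp

lemma map_be (φ : S →+* T) (a : Fin 10 → Fin 6 → S) (i : Fin 6) :
    φ (be a i) = be (fun k i => φ (a k i)) i := by
  unfold be
  rw [map_sum, map_Am, ← RingHom.map_adjugate]
  simp

lemma map_F (φ : S →+* T) (a : Fin 10 → Fin 6 → S) :
    φ (F a) = F (fun k i => φ (a k i)) := by
  unfold F mn
  simp only [map_mul, map_sub, map_prod, map_al, map_be]
  rw [map_Am, RingHom.map_det]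

end Gen

/-- the special point -/
def a0 : Fin 10 → Fin 6 → ℂ := fun k i =>
  if k.val < 6 then (if k.val = i.val then 1 else 0) else if k.val = 6 then 1 else
    if k.val = 7 then (i.val : ℂ) + 1 else 0

lemma Am_a0 : Am a0 = 1 := by
  ext i j
  unfold Am a0
  rw [Matrix.of_apply, Matrix.one_apply]
  have hi : ((Fin.castLE (by norm_num : 6 ≤ 10) i) : Fin 10).val = i.val := rfl
  rw [hi, if_pos i.isLt]
  simp [Fin.ext_iff]

lemma al_a0 (i : Fin 6) : al a0 i = 1 := by
  unfold al
  rw [Am_a0, Matrix.adjugate_one]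
  simp [Matrix.one_apply, a0]

lemma be_a0 (i : Fin 6) : be a0 i = (i.val : ℂ) + 1 := by
  unfold be
  rw [Am_a0, Matrix.adjugate_one]
  simp [Matrix.one_apply, a0]

lemma F_a0 : F a0 ≠ 0 := by
  unfold F mn
  simp only [al_a0, be_a0, Am_a0, Matrix.det_one, Fin.prod_univ_six]
  have t2 : ((2 : Fin 6) : ℕ) = 2 := rfl
  have t3 : ((3 : Fin 6) : ℕ) = 3 := rfl
  have t4 : ((4 : Fin 6) : ℕ) = 4 := rfl
  have t5 : ((5 : Fin 6) : ℕ) = 5 := rfl
  rw [t2, t3, t4, t5]
  norm_num

lemma exists_good (P : MvPolynomial (Fin 10 × Fin 6) ℂ) (hP : P ≠ 0) :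
    ∃ a : Fin 10 → Fin 6 → ℂ, eval (fun p : Fin 10 × Fin 6 => a p.1 p.2) P ≠ 0 ∧ F a ≠ 0 := by
  set G : MvPolynomial (Fin 10 × Fin 6) ℂ := F (fun k i => X (k, i)) with hG
  have hev : ∀ a : Fin 10 → Fin 6 → ℂ,
      eval (fun p : Fin 10 × Fin 6 => a p.1 p.2) G = F a := by
    intro a
    rw [hG, map_F]
    simp
  have hG0 : G ≠ 0 := by
    intro h
    apply F_a0
    rw [← hev, h, map_zero]
  have hPG : P * G ≠ 0 := mul_ne_zero hP hG0
  obtain ⟨x, hx⟩ : ∃ x : Fin 10 × Fin 6 → ℂ, eval x (P * G) ≠ 0 := by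
    by_contra hcon
    push Not at hcon
    apply hPG
    apply MvPolynomial.funext
    intro x
    rw [hcon x, map_zero]
  refine ⟨fun k i => x (k, i), ?_, ?_⟩
  · intro h
    apply hx
    rw [map_mul]
    have : (fun p : Fin 10 × Fin 6 => x (p.1, p.2)) = x := rfl
    rw [this] at h
    rw [h, zero_mul]
  · intro h
    apply hx
    rw [map_mul]
    rw [← hev] at h
    have : (fun p : Fin 10 × Fin 6 => x (p.1, p.2)) = x := rfl
    rw [this] at h
    rw [h, mul_zero]

/-- the linear forms -/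
def lf (a : Fin 10 → Fin 6 → ℂ) (k : Fin 10) : R6 := ∑ i : Fin 6, C (a k i) * X i

lemma lf_hom (a : Fin 10 → Fin 6 → ℂ) (k : Fin 10) : (lf a k).IsHomogeneous 1 := by
  unfold lf
  exact MvPolynomial.IsHomogeneous.sum _ _ _ fun i _ => isHomogeneous_C_mul_X _ _

/-- linear combination -/
lemma lf_comb (a : Fin 10 → Fin 6 → ℂ) (hdet : (Am a).det ≠ 0) (r : Fin 10) :
    lf a r = ∑ i : Fin 6, C ((∑ k, a r k * (Am a).adjugate k i) / (Am a).det) *
      lf a (Fin.castLE (by norm_num) i) := by
  unfold lf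
  simp only [Finset.mul_sum]
  rw [Finset.sum_comm]
  refine Finset.sum_congr rfl fun j _ => ?_
  have h1 : a r j = ∑ i : Fin 6, ((∑ k, a r k * (Am a).adjugate k i) / (Am a).det) *
      a (Fin.castLE (by norm_num) i) j := by
    have h2 : (Am a).adjugate * (Am a) = (Am a).det • (1 : Matrix (Fin 6) (Fin 6) ℂ) :=
      Matrix.adjugate_mul _
    have h3 : ∀ k, ∑ i, (Am a).adjugate k i * a (Fin.castLE (by norm_num) i) j =
        if k = j then (Am a).det else 0 := by
      intro k
      have := congrFun (congrFun h2 k) j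
      rw [Matrix.mul_apply] at this
      simp only [Matrix.smul_apply, Matrix.one_apply, smul_eq_mul, mul_ite, mul_one,
        mul_zero] at this
      rw [← this]
      rfl
    have h4 : (Am a).det * a r j = ∑ i : Fin 6, (∑ k, a r k * (Am a).adjugate k i) *
        a (Fin.castLE (by norm_num) i) j := by
      simp only [Finset.sum_mul]
      rw [Finset.sum_comm]
      simp only [mul_assoc, ← Finset.mul_sum]
      simp only [h3]
      simp
      ring
    rw [eq_comm]
    calc ∑ i : Fin 6, ((∑ k, a r k * (Am a).adjugate k i) / (Am a).det) *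
          a (Fin.castLE (by norm_num) i) j
        = (∑ i : Fin 6, (∑ k, a r k * (Am a).adjugate k i) *
          a (Fin.castLE (by norm_num) i) j) / (Am a).det := by
          rw [Finset.sum_div]
          refine Finset.sum_congr rfl fun i _ => ?_
          ring
      _ = a r j := by
          rw [← h4]
          field_simp
  conv_lhs => rw [h1]
  rw [map_sum, Finset.sum_mul]
  refine Finset.sum_congr rfl fun i _ => ?_
  rw [map_mul, mul_assoc]

/-- the homomorphism sending `ℓ_i` to `c_i ε` or `c_i δ`. -/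
lemma exists_psi (a : Fin 10 → Fin 6 → ℂ) (hdet : (Am a).det ≠ 0) (c : Fin 6 → ℂ) :
    ∃ ψ : MvPolynomial (Fin 6) ℂ →ₐ[ℂ] B, ∀ i : Fin 6,
      ψ (lf a (Fin.castLE (by norm_num) i)) =
        algebraMap ℂ B (c i) * (if i.val < 3 then eps else del) := by
  refine ⟨aeval (fun j => ∑ k, algebraMap ℂ B ((Am a)⁻¹ j k * c k) *
    (if k.val < 3 then eps else del)), fun i => ?_⟩
  unfold lf
  rw [map_sum]
  simp only [map_mul, aeval_X, Finset.mul_sum]
  rw [Finset.sum_comm]
  have h1 : (Am a) * (Am a)⁻¹ = 1 := Matrix.mul_nonsing_inv _ (isUnit_iff_ne_zero.mpr hdet)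
  have h2 : ∀ k, ∑ j, a (Fin.castLE (by norm_num) i) j * (Am a)⁻¹ j k =
      if i = k then 1 else 0 := by
    intro k
    have := congrFun (congrFun h1 i) k
    rw [Matrix.mul_apply, Matrix.one_apply] at this
    exact this
  have h3 : ∀ k : Fin 6, ∑ j, (aeval (R := ℂ) (fun j => ∑ k, algebraMap ℂ B ((Am a)⁻¹ j k * c k) *
    (if k.val < 3 then eps else del))) (C (a (Fin.castLE (by norm_num) i) j)) *
      (algebraMap ℂ B ((Am a)⁻¹ j k) * algebraMap ℂ B (c k) * (if k.val < 3 then eps else del)) =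
      (if i = k then 1 else 0) * (algebraMap ℂ B (c k) * (if k.val < 3 then eps else del)) := by
    intro k
    simp only [aeval_C]
    have : (if i = k then (1 : B) else 0) = algebraMap ℂ B (if i = k then (1 : ℂ) else 0) := by
      split_ifs <;> simp
    rw [this, ← h2 k, map_sum, Finset.sum_mul]
    refine Finset.sum_congr rfl fun j _ => ?_
    rw [map_mul]
    ring
  simp only [map_mul] at h3
  simp only [h3]
  simp only [ite_mul, one_mul, zero_mul, Finset.sum_ite_eq, Finset.mem_univ, if_true]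

end

end Pool.Agent.Helper271.Froberg
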