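import Mathlib
import Pool.Agent.Helper271.FrobergGen

set_option autoImplicit false
set_option linter.constructorNameAsVariable false

open MvPolynomial

namespace Pool.Agent.Helper271.Froberg

noncomputable section

lemma kappa_ne (α0 α1 α2 β0 β1 β2 : ℂ) (h0 : α0 ≠ 0) (h1 : α1 ≠ 0) (h2 : α2 ≠ 0)
    (h01 : α0 * β1 - α1 * β0 ≠ 0) (h02 : α0 * β2 - α2 * β0 ≠ 0) (h12 : α1 * β2 - α2 * β1 ≠ 0) :
    (β0⁻¹)⁻¹ * (-(-α0⁻¹) * (β0⁻¹)⁻¹) * (α1 * β2 - α2 * β1) +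
      (β1⁻¹)⁻¹ * (-(-α1⁻¹) * (β1⁻¹)⁻¹) * (α2 * β0 - α0 * β2) +
      (β2⁻¹)⁻¹ * (-(-α2⁻¹) * (β2⁻¹)⁻¹) * (α0 * β1 - α1 * β0) ≠ 0 := by
  have h : (β0⁻¹)⁻¹ * (-(-α0⁻¹) * (β0⁻¹)⁻¹) * (α1 * β2 - α2 * β1) +
      (β1⁻¹)⁻¹ * (-(-α1⁻¹) * (β1⁻¹)⁻¹) * (α2 * β0 - α0 * β2) +
      (β2⁻¹)⁻¹ * (-(-α2⁻¹) * (β2⁻¹)⁻¹) * (α0 * β1 - α1 * β0) =
      (α0 * β1 - α1 * β0) * (α0 * β2 - α2 * β0) * (α1 * β2 - α2 * β1) / (α0 * α1 * α2) := by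
    simp only [inv_inv]
    field_simp
    ring
  rw [h]
  exact div_ne_zero (mul_ne_zero (mul_ne_zero h01 h02) h12) (mul_ne_zero (mul_ne_zero h0 h1) h2)

lemma exists_g (a : Fin 10 → Fin 6 → ℂ) (hF : F a ≠ 0) :
    ∃ g' ∈ homogeneousSubmodule (Fin 6) ℂ 13,
      g' ∉ Ideal.span (Set.range (fun i : Fin 6 => (lf a (Fin.castLE (by norm_num) i)) ^ 9) ∪
        {(lf a 6) ^ 9}) ∧
      g' * (lf a 7) ^ 9 ∈
        Ideal.span (Set.range (fun i : Fin 6 => (lf a (Fin.castLE (by norm_num) i)) ^ 9) ∪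
        {(lf a 6) ^ 9}) := by
  unfold F at hF
  have hF0 := left_ne_zero_of_mul hF
  have hm2 := right_ne_zero_of_mul hF
  have hm1 := right_ne_zero_of_mul hF0
  have hF1 := left_ne_zero_of_mul hF0
  have hbe := right_ne_zero_of_mul hF1
  have hF2 := left_ne_zero_of_mul hF1
  have hal := right_ne_zero_of_mul hF2
  have hdet := left_ne_zero_of_mul hF2
  have hal' : ∀ i, al a i ≠ 0 := fun i => Finset.prod_ne_zero_iff.mp hal i (Finset.mem_univ i)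
  have hbe' : ∀ i, be a i ≠ 0 := fun i => Finset.prod_ne_zero_iff.mp hbe i (Finset.mem_univ i)
  have h01 := left_ne_zero_of_mul (left_ne_zero_of_mul hm1)
  have h02 := right_ne_zero_of_mul (left_ne_zero_of_mul hm1)
  have h12 := right_ne_zero_of_mul hm1
  have h34 := left_ne_zero_of_mul (left_ne_zero_of_mul hm2)
  have h35 := right_ne_zero_of_mul (left_ne_zero_of_mul hm2)
  have h45 := right_ne_zero_of_mul hm2
  set α : Fin 6 → ℂ := fun i => al a i / (Am a).det with hα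
  set β : Fin 6 → ℂ := fun i => be a i / (Am a).det with hβ
  have hα0 : ∀ i, α i ≠ 0 := fun i => div_ne_zero (hal' i) hdet
  have hβ0 : ∀ i, β i ≠ 0 := fun i => div_ne_zero (hbe' i) hdet
  have hmn : ∀ i j, mn a i j ≠ 0 → α i * β j - α j * β i ≠ 0 := by
    intro i j hij
    have : α i * β j - α j * β i = mn a i j / (Am a).det ^ 2 := by
      rw [hα, hβ, mn]
      field_simp
    rw [this]
    exact div_ne_zero hij (pow_ne_zero _ hdet)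
  have m01 := hmn _ _ h01
  have m02 := hmn _ _ h02
  have m12 := hmn _ _ h12
  have m34 := hmn _ _ h34
  have m35 := hmn _ _ h35
  have m45 := hmn _ _ h45
  set y : Fin 6 → R6 := fun i => lf a (Fin.castLE (by norm_num) i) with hy
  set p : Fin 6 → ℂ := fun i => (β i)⁻¹ with hp
  set q : Fin 6 → ℂ := fun i => -(α i)⁻¹ with hq
  have hp0 : ∀ i, p i ≠ 0 := fun i => inv_ne_zero (hβ0 i)
  have hq0 : ∀ i, q i ≠ 0 := fun i => neg_ne_zero.mpr (inv_ne_zero (hα0 i))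
  have hM7 : M y p = lf a 7 := by
    rw [lf_comb a hdet 7]
    unfold M
    refine Finset.sum_congr rfl fun i _ => ?_
    rw [hp, hy, hβ]
    simp only [inv_inv]
    rfl
  have hM6 : M y q = - lf a 6 := by
    rw [lf_comb a hdet 6, ← Finset.sum_neg_distrib]
    unfold M
    refine Finset.sum_congr rfl fun i _ => ?_
    rw [hq, hy, hα]
    simp only [inv_neg, inv_inv, map_neg]
    rw [neg_mul]
    rfl
  have hspan : Ideal.span (Set.range (fun i => y i ^ 9) ∪ {(M y q) ^ 9}) =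
      Ideal.span (Set.range (fun i : Fin 6 => (lf a (Fin.castLE (by norm_num) i)) ^ 9) ∪
        {(lf a 6) ^ 9}) := by
    rw [Ideal.span_union, Ideal.span_union, hM6, Odd.neg_pow (by decide : Odd 9),
      Ideal.span_singleton_neg]
  set c : Fin 6 → ℂ := ![α 1 * β 2 - α 2 * β 1, α 2 * β 0 - α 0 * β 2, α 0 * β 1 - α 1 * β 0,
    α 4 * β 5 - α 5 * β 4, α 5 * β 3 - α 3 * β 5, α 3 * β 4 - α 4 * β 3] with hc
  obtain ⟨ψ, hψ⟩ := exists_psi a hdet c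
  have c0 : c 0 = α 1 * β 2 - α 2 * β 1 := rfl
  have c1 : c 1 = α 2 * β 0 - α 0 * β 2 := rfl
  have c2 : c 2 = α 0 * β 1 - α 1 * β 0 := rfl
  have c3 : c 3 = α 4 * β 5 - α 5 * β 4 := rfl
  have c4 : c 4 = α 5 * β 3 - α 3 * β 5 := rfl
  have c5 : c 5 = α 3 * β 4 - α 4 * β 3 := rfl
  refine ⟨g y p q, g_hom y (fun i => lf_hom a _) p q, ?_, ?_⟩
  · rw [← hspan]
    have n1 : (p 0)⁻¹ * c 0 + (p 1)⁻¹ * c 1 + (p 2)⁻¹ * c 2 = 0 := by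
      rw [c0, c1, c2]; simp only [hp, inv_inv]; ring
    have n2 : (p 3)⁻¹ * c 3 + (p 4)⁻¹ * c 4 + (p 5)⁻¹ * c 5 = 0 := by
      rw [c3, c4, c5]; simp only [hp, inv_inv]; ring
    have n3 : (q 0)⁻¹ * c 0 + (q 1)⁻¹ * c 1 + (q 2)⁻¹ * c 2 = 0 := by
      rw [c0, c1, c2]; simp only [hq, inv_neg, inv_inv]; ring
    have n4 : (q 3)⁻¹ * c 3 + (q 4)⁻¹ * c 4 + (q 5)⁻¹ * c 5 = 0 := by
      rw [c3, c4, c5]; simp only [hq, inv_neg, inv_inv]; ring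
    have k1 := kappa_ne (α 0) (α 1) (α 2) (β 0) (β 1) (β 2) (hα0 0) (hα0 1) (hα0 2) m01 m02 m12
    have k2 := kappa_ne (α 3) (α 4) (α 5) (β 3) (β 4) (β 5) (hα0 3) (hα0 4) (hα0 5) m34 m35 m45
    have r1 : (β 0)⁻¹⁻¹ * (-(-(α 0)⁻¹) * (β 0)⁻¹⁻¹) * (α 1 * β 2 - α 2 * β 1) +
      (β 1)⁻¹⁻¹ * (-(-(α 1)⁻¹) * (β 1)⁻¹⁻¹) * (α 2 * β 0 - α 0 * β 2) +
      (β 2)⁻¹⁻¹ * (-(-(α 2)⁻¹) * (β 2)⁻¹⁻¹) * (α 0 * β 1 - α 1 * β 0) =
      (p 0)⁻¹ * (-(q 0) * (p 0)⁻¹) * c 0 + (p 1)⁻¹ * (-(q 1) * (p 1)⁻¹) * c 1 +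
      (p 2)⁻¹ * (-(q 2) * (p 2)⁻¹) * c 2 := by
      rw [c0, c1, c2]
    have r2 : (β 3)⁻¹⁻¹ * (-(-(α 3)⁻¹) * (β 3)⁻¹⁻¹) * (α 4 * β 5 - α 5 * β 4) +
      (β 4)⁻¹⁻¹ * (-(-(α 4)⁻¹) * (β 4)⁻¹⁻¹) * (α 5 * β 3 - α 3 * β 5) +
      (β 5)⁻¹⁻¹ * (-(-(α 5)⁻¹) * (β 5)⁻¹⁻¹) * (α 3 * β 4 - α 4 * β 3) =
      (p 3)⁻¹ * (-(q 3) * (p 3)⁻¹) * c 3 + (p 4)⁻¹ * (-(q 4) * (p 4)⁻¹) * c 4 +
      (p 5)⁻¹ * (-(q 5) * (p 5)⁻¹) * c 5 := by
      rw [c3, c4, c5]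
    exact not_mem y p q hp0 ψ c hψ n1 n2 n3 n4 _ _ k1 k2 r1 r2
  · rw [← hspan]
    have hk := key y p q hp0 hq0
    have hk' : (M y p) ^ 9 * g y p q - (M y q) ^ 9 * g y q p ∈
        Ideal.span (Set.range (fun i => y i ^ 9) ∪ {(M y q) ^ 9}) :=
      Ideal.span_mono Set.subset_union_left hk
    have h2 : (M y q) ^ 9 * g y q p ∈
        Ideal.span (Set.range (fun i => y i ^ 9) ∪ {(M y q) ^ 9}) :=
      Ideal.mul_mem_right _ _ (Ideal.subset_span (Or.inr rfl))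
    have h3 := Ideal.add_mem _ hk' h2
    rw [sub_add_cancel, hM7, mul_comm] at h3
    exact h3

end

end Pool.Agent.Helper271.Froberg
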